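import Pool.Agent.NDG25.Game

/-! The effect of a move on the numbers of undominated leaf and non-leaf neighbours. -/

namespace Pool.Agent.NDG25

variable {V : Type*} [Finite V] (G : SimpleGraph V)

/-- Number of undominated leaf neighbours of `v`. -/
noncomputable def lf (D : Set V) (v : V) : ℕ := {x | G.Adj v x ∧ IsLeaf G x ∧ x ∈ und G D}.ncard

/-- Number of undominated non-leaf neighbours of `v`. -/
noncomputable def dn (D : Set V) (v : V) : ℕ :=
  {x | G.Adj v x ∧ ¬ IsLeaf G x ∧ x ∈ und G D}.ncard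

/-- No two leaves are adjacent. -/
def NoK2 : Prop := ∀ x y, G.Adj x y → IsLeaf G x → ¬ IsLeaf G y

omit [Finite V] in
theorem leaf_unique {x v w : V} (hx : IsLeaf G x) (hv : G.Adj v x) (hw : G.Adj w x) : v = w :=
  hx.unique hv.symm hw.symm

theorem dn_le (D : Set V) (y w : V) : dn G (insert y D) w ≤ dn G D w := by
  apply Set.ncard_le_ncard _ (Set.toFinite _)
  rintro x ⟨h1, h2, h3⟩
  exact ⟨h1, h2, ((mem_und_insert G D y x).1 h3).1⟩

theorem dn_lt (D : Set V) (y w c : V) (hwc : G.Adj w c) (hc : ¬ IsLeaf G c) (hcD : c ∈ und G D)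
    (hyc : InNbhd G y c) : dn G (insert y D) w + 1 ≤ dn G D w := by
  apply Nat.succ_le_of_lt
  apply Set.ncard_lt_ncard _ (Set.toFinite _)
  refine ⟨?_, ?_⟩
  · rintro x ⟨h1, h2, h3⟩
    exact ⟨h1, h2, ((mem_und_insert G D y x).1 h3).1⟩
  · intro h
    have := h (show c ∈ {x | G.Adj w x ∧ ¬ IsLeaf G x ∧ x ∈ und G D} from ⟨hwc, hc, hcD⟩)
    exact ((mem_und_insert G D y c).1 this.2.2).2 hyc

omit [Finite V] in
theorem lf_inner_self (D : Set V) (v : V) : lf G (insert v D) v = 0 := by
  have : {x | G.Adj v x ∧ IsLeaf G x ∧ x ∈ und G (insert v D)} = ∅ := by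
    apply Set.eq_empty_of_forall_notMem
    rintro x ⟨h1, h2, h3⟩
    exact ((mem_und_insert G D v x).1 h3).2 (Or.inr h1)
  rw [lf, this, Set.ncard_empty]

omit [Finite V] in
theorem dn_inner_self (D : Set V) (v : V) : dn G (insert v D) v = 0 := by
  have : {x | G.Adj v x ∧ ¬ IsLeaf G x ∧ x ∈ und G (insert v D)} = ∅ := by
    apply Set.eq_empty_of_forall_notMem
    rintro x ⟨h1, h2, h3⟩
    exact ((mem_und_insert G D v x).1 h3).2 (Or.inr h1)
  rw [dn, this, Set.ncard_empty]

omit [Finite V] in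
theorem lf_inner_other (D : Set V) (v w : V) (hv : ¬ IsLeaf G v) (hwv : w ≠ v) :
    lf G (insert v D) w = lf G D w := by
  unfold lf
  congr 1
  ext x
  constructor
  · rintro ⟨h1, h2, h3⟩
    exact ⟨h1, h2, ((mem_und_insert G D v x).1 h3).1⟩
  · rintro ⟨h1, h2, h3⟩
    refine ⟨h1, h2, (mem_und_insert G D v x).2 ⟨h3, ?_⟩⟩
    rintro (rfl | h)
    · exact hv h2
    · exact hwv (leaf_unique G h2 h1 h)

omit [Finite V] in
theorem inNbhd_leaf {x c u : V} (hx : IsLeaf G x) (hc : G.Adj c x) :
    InNbhd G x u ↔ u = x ∨ u = c := by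
  constructor
  · rintro (h | h)
    · exact Or.inl h
    · exact Or.inr (hx.unique h hc.symm)
  · rintro (h | h)
    · exact Or.inl h
    · exact Or.inr (h ▸ hc.symm)

omit [Finite V] in
theorem lf_leaf_other (hK : NoK2 G) (D : Set V) (x c w : V) (hx : IsLeaf G x) (hc : G.Adj c x)
    (hwc : w ≠ c) : lf G (insert x D) w = lf G D w := by
  unfold lf
  congr 1
  ext y
  constructor
  · rintro ⟨h1, h2, h3⟩
    exact ⟨h1, h2, ((mem_und_insert G D x y).1 h3).1⟩
  · rintro ⟨h1, h2, h3⟩
    refine ⟨h1, h2, (mem_und_insert G D x y).2 ⟨h3, ?_⟩⟩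
    rw [inNbhd_leaf G hx hc]
    rintro (rfl | rfl)
    · exact hwc (leaf_unique G hx h1 hc)
    · exact hK x y hc.symm hx h2

omit [Finite V] in
theorem lf_leaf_self (hK : NoK2 G) (D : Set V) (x c : V) (hx : IsLeaf G x) (hc : G.Adj c x)
    (hxD : x ∈ und G D) : lf G (insert x D) c = lf G D c - 1 := by
  have : {y | G.Adj c y ∧ IsLeaf G y ∧ y ∈ und G (insert x D)} =
      {y | G.Adj c y ∧ IsLeaf G y ∧ y ∈ und G D} \ {x} := by
    ext y
    constructor
    · rintro ⟨h1, h2, h3⟩
      have h4 := (mem_und_insert G D x y).1 h3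
      refine ⟨⟨h1, h2, h4.1⟩, ?_⟩
      rintro rfl
      exact h4.2 (Or.inl rfl)
    · rintro ⟨⟨h1, h2, h3⟩, h4⟩
      refine ⟨h1, h2, (mem_und_insert G D x y).2 ⟨h3, ?_⟩⟩
      rw [inNbhd_leaf G hx hc]
      rintro (rfl | rfl)
      · exact h4 rfl
      · exact hK x y hc.symm hx h2
  rw [lf, this, lf]
  exact Set.ncard_sdiff_singleton_of_mem (show x ∈ {y | G.Adj c y ∧ IsLeaf G y ∧ y ∈ und G D} from
    ⟨hc, hx, hxD⟩)

theorem exists_leaf (D : Set V) (v : V) (h : 1 ≤ lf G D v) :
    ∃ x, G.Adj v x ∧ IsLeaf G x ∧ x ∈ und G D := by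
  have := (Set.ncard_pos (Set.toFinite _)).1 (show 0 < lf G D v from h)
  exact this

theorem lf_pos (D : Set V) (v x : V) (h1 : G.Adj v x) (h2 : IsLeaf G x) (h3 : x ∈ und G D) :
    1 ≤ lf G D v :=
  (Set.ncard_pos (Set.toFinite _)).2 ⟨x, h1, h2, h3⟩

theorem dn_pos (D : Set V) (v x : V) (h1 : G.Adj v x) (h2 : ¬ IsLeaf G x) (h3 : x ∈ und G D) :
    1 ≤ dn G D v :=
  (Set.ncard_pos (Set.toFinite _)).2 ⟨x, h1, h2, h3⟩

theorem exists_dn (D : Set V) (v : V) (h : 1 ≤ dn G D v) :
    ∃ x, G.Adj v x ∧ ¬ IsLeaf G x ∧ x ∈ und G D := by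
  have := (Set.ncard_pos (Set.toFinite _)).1 (show 0 < dn G D v from h)
  exact this

/-- The local condition at a non-leaf `v`. -/
def Ok (D : Set V) (v : V) : Prop :=
  (v ∉ und G D → dn G D v = 0 ∨ dn G D v + 1 ≤ lf G D v) ∧
  (v ∈ und G D → dn G D v + 2 ≤ lf G D v)

/-- A leaf is undominated if its neighbour is. -/
def Full (D : Set V) : Prop :=
  ∀ c x, IsLeaf G x → G.Adj c x → c ∈ und G D → x ∈ und G D

/-- The invariant. -/
def Good (D : Set V) : Prop := Full G D ∧ ∀ v, ¬ IsLeaf G v → Ok G D v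

omit [Finite V] in
theorem full_insert (D : Set V) (y : V) (h : Full G D) : Full G (insert y D) := by
  intro c x hx hcx hc
  have h1 := (mem_und_insert G D y c).1 hc
  refine (mem_und_insert G D y x).2 ⟨h c x hx hcx h1.1, ?_⟩
  rintro (rfl | h2)
  · exact h1.2 (Or.inr hcx.symm)
  · exact h1.2 (Or.inl (leaf_unique G hx hcx h2))

theorem good_inner (D : Set V) (v : V) (hv : ¬ IsLeaf G v) (h : Good G D) :
    Good G (insert v D) := by
  refine ⟨full_insert G D v h.1, fun w hw => ?_⟩
  by_cases hwv : w = v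
  · subst hwv
    refine ⟨fun _ => Or.inl (dn_inner_self G D w), fun h' => ?_⟩
    exact absurd (Or.inl rfl) ((mem_und_insert G D w w).1 h').2
  · have hO := h.2 w hw
    have h1 := dn_le G D v w
    have h2 := lf_inner_other G D v w hv hwv
    constructor
    · intro _
      by_cases hwD : w ∈ und G D
      · have := hO.2 hwD; right; omega
      · rcases hO.1 hwD with h3 | h3
        · left; omega
        · right; omega
    · intro h'
      have := hO.2 ((mem_und_insert G D v w).1 h').1
      omega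

theorem ok_leaf_other (hK : NoK2 G) (D : Set V) (x c w : V) (hx : IsLeaf G x) (hc : G.Adj c x)
    (hw : ¬ IsLeaf G w) (hwc : w ≠ c) (hO : Ok G D w) : Ok G (insert x D) w := by
  have h1 := dn_le G D x w
  have h2 := lf_leaf_other G hK D x c w hx hc hwc
  have hmem : w ∈ und G (insert x D) ↔ w ∈ und G D := by
    rw [mem_und_insert, inNbhd_leaf G hx hc]
    refine ⟨fun h => h.1, fun h => ⟨h, ?_⟩⟩
    rintro (rfl | rfl)
    · exact hw hx
    · exact hwc rfl
  constructor
  · intro h
    rw [hmem] at h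
    rcases hO.1 h with h3 | h3
    · left; omega
    · right; omega
  · intro h
    rw [hmem] at h
    have := hO.2 h
    omega

/-- A leaf move at `c` keeps the invariant if `c` had room. -/
theorem good_leaf (hK : NoK2 G) (D : Set V) (x c : V) (hx : IsLeaf G x) (hc : G.Adj c x)
    (hxD : x ∈ und G D) (h : Good G D)
    (hroom : dn G D c = 0 ∨ dn G D c + 2 ≤ lf G D c) : Good G (insert x D) := by
  refine ⟨full_insert G D x h.1, fun w hw => ?_⟩
  by_cases hwc : w = c
  · subst hwc
    have h1 := dn_le G D x w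
    have h2 := lf_leaf_self G hK D x w hx hc hxD
    constructor
    · intro _
      rcases hroom with h3 | h3
      · left; omega
      · right; omega
    · intro h'
      exact absurd (Or.inr hc.symm) ((mem_und_insert G D x w).1 h').2
  · exact ok_leaf_other G hK D x c w hx hc hw hwc (h.2 w hw)

/-- After a leaf move at `c` without room, a leaf move at an undominated non-leaf
neighbour `w` of `c` restores the invariant. -/
theorem good_restore (hK : NoK2 G) (D : Set V) (x c x' w : V) (hx : IsLeaf G x)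
    (hc : G.Adj c x) (hxD : x ∈ und G D) (h : Good G D) (hcD : c ∉ und G D)
    (hroom : dn G D c + 1 = lf G D c) (hcw : G.Adj c w) (hw : ¬ IsLeaf G w)
    (hwD : w ∈ und G D) (hx' : IsLeaf G x') (hwx' : G.Adj w x') :
    Good G (insert x' (insert x D)) := by
  have hwc : w ≠ c := hcw.ne'
  have hcl : ¬ IsLeaf G c := hK x c hc.symm hx
  refine ⟨full_insert G _ x' (full_insert G D x h.1), fun v hv => ?_⟩
  have hwD' : w ∈ und G (insert x D) := by
    rw [mem_und_insert, inNbhd_leaf G hx hc]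
    refine ⟨hwD, ?_⟩
    rintro (rfl | rfl)
    · exact hw hx
    · exact hwc rfl
  have hx'D' : x' ∈ und G (insert x D) :=
    full_insert G D x h.1 w x' hx' hwx' hwD'
  by_cases hvc : v = c
  · subst hvc
    have h1 := dn_le G D x v
    have h2 := lf_leaf_self G hK D x v hx hc hxD
    have h3 := dn_lt G (insert x D) x' v w hcw hw hwD' (Or.inr hwx'.symm)
    have h4 := lf_leaf_other G hK (insert x D) x' w v hx' hwx' hwc.symm
    constructor
    · intro _; right; omega
    · intro h'
      have := ((mem_und_insert G _ x' v).1 h').1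
      exact absurd ((mem_und_insert G D x v).1 this).1 hcD
  · have hO : Ok G (insert x D) v := ok_leaf_other G hK D x c v hx hc hv hvc (h.2 v hv)
    by_cases hvw : v = w
    · subst hvw
      have h1 := dn_le G (insert x D) x' v
      have h2 := lf_leaf_self G hK (insert x D) x' v hx' hwx' hx'D'
      have h3 := hO.2 hwD'
      constructor
      · intro _; right; omega
      · intro h'
        exact absurd (Or.inr hwx'.symm) ((mem_und_insert G _ x' v).1 h').2
    · exact ok_leaf_other G hK (insert x D) x' w v hx' hwx' hv hvw hO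

end Pool.Agent.NDG25
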