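import Mathlib

/-!
# The Normal Domination Game

Definitions for the hand-in of `MP_72fa99_lc`: the game, the winner, the Grundy value, and the
numbers of leaf and non-leaf neighbours of a vertex.
-/

namespace Pool.Agent.NDG25

variable {V : Type*}

/-- `u` lies in the closed neighbourhood `N[v]` of `v`. -/
def InNbhd (G : SimpleGraph V) (v u : V) : Prop := u = v ∨ G.Adj v u

/-- The set `D` of chosen vertices dominates `u`. -/
def Dominated (G : SimpleGraph V) (D : Set V) (u : V) : Prop := ∃ v ∈ D, InNbhd G v u

/-- `v` is a legal move when the vertices of `D` have been chosen: `N[v]` contains a vertex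
that `D` does not dominate. -/
def Legal (G : SimpleGraph V) (D : Set V) (v : V) : Prop := ∃ u, InNbhd G v u ∧ ¬ Dominated G D u

/-- The player who has to move, when the vertices of `D` have been chosen, has a winning
strategy: there is a legal move `v` such that, after every legal answer `w` of the opponent,
the player has again a winning strategy (a player without a legal move loses). -/
inductive MoverWins (G : SimpleGraph V) : Set V → Prop
  | mk (D : Set V) (v : V) (hv : Legal G D v)
      (h : ∀ w, Legal G (insert v D) w → MoverWins G (insert w (insert v D))) : MoverWins G D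

/-- Alice (who moves first) has a winning strategy. -/
def AliceWins (G : SimpleGraph V) : Prop := MoverWins G ∅

/-- Bob has a winning strategy: he wins after every first move of Alice. -/
def BobWins (G : SimpleGraph V) : Prop := ∀ v, Legal G ∅ v → MoverWins G (insert v ∅)

/-- `n` is the Sprague-Grundy value of the position `D`: `f v` is the Grundy value of the
position after the move `v`, and `n` is the least natural number that is not of the form
`f v` with `v` legal. -/
inductive HasGrundy (G : SimpleGraph V) : Set V → ℕ → Prop
  | mk (D : Set V) (n : ℕ) (f : V → ℕ)
      (h : ∀ v, Legal G D v → HasGrundy G (insert v D) (f v))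
      (hne : ∀ v, Legal G D v → f v ≠ n)
      (hlt : ∀ k, k < n → ∃ v, Legal G D v ∧ f v = k) : HasGrundy G D n

/-- `x` is a leaf: it has exactly one neighbour. -/
def IsLeaf (G : SimpleGraph V) (x : V) : Prop := ∃! y, G.Adj x y

/-- The number of neighbours of `v` that are leaves. -/
noncomputable def leafDeg (G : SimpleGraph V) (v : V) : ℕ := {x | G.Adj v x ∧ IsLeaf G x}.ncard

/-- The number of neighbours of `v` that are not leaves. -/
noncomputable def innerDeg (G : SimpleGraph V) (v : V) : ℕ :=
  {x | G.Adj v x ∧ ¬ IsLeaf G x}.ncard

/-- The number of non-leaf vertices with an odd number of leaf neighbours. -/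
noncomputable def oddInner (G : SimpleGraph V) : ℕ :=
  {v | ¬ IsLeaf G v ∧ Odd (leafDeg G v)}.ncard

/-- The number of non-leaf vertices with an even number of leaf neighbours. -/
noncomputable def evenInner (G : SimpleGraph V) : ℕ :=
  {v | ¬ IsLeaf G v ∧ Even (leafDeg G v)}.ncard

end Pool.Agent.NDG25
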