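import Pool.Agent.NDG25.Defs

/-! General facts on Grundy values and winners. -/

namespace Pool.Agent.NDG25

variable {V : Type*} [Finite V] (G : SimpleGraph V)

/-- The set of vertices that `D` does not dominate. -/
def und (D : Set V) : Set V := {u | ¬ Dominated G D u}

omit [Finite V] in
theorem mem_und_insert (D : Set V) (v u : V) :
    u ∈ und G (insert v D) ↔ u ∈ und G D ∧ ¬ InNbhd G v u := by
  change (¬ (∃ w ∈ insert v D, InNbhd G w u)) ↔ (¬ (∃ w ∈ D, InNbhd G w u)) ∧ ¬ InNbhd G v u
  simp only [Set.mem_insert_iff]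
  constructor
  · intro h
    refine ⟨fun ⟨w, hw, h'⟩ => h ⟨w, Or.inr hw, h'⟩, fun h' => h ⟨v, Or.inl rfl, h'⟩⟩
  · rintro ⟨h1, h2⟩ ⟨w, rfl | hw, h'⟩
    · exact h2 h'
    · exact h1 ⟨w, hw, h'⟩

omit [Finite V] in
theorem legal_iff (D : Set V) (v : V) : Legal G D v ↔ ∃ u ∈ und G D, InNbhd G v u := by
  constructor
  · rintro ⟨u, h1, h2⟩; exact ⟨u, h2, h1⟩
  · rintro ⟨u, h1, h2⟩; exact ⟨u, h2, h1⟩

theorem und_lt (D : Set V) (v : V) (hv : Legal G D v) :
    (und G (insert v D)).ncard < (und G D).ncard := by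
  obtain ⟨u, hu, hvu⟩ := (legal_iff G D v).1 hv
  apply Set.ncard_lt_ncard _ (Set.toFinite _)
  refine ⟨fun w hw => ((mem_und_insert G D v w).1 hw).1, fun h => ?_⟩
  exact ((mem_und_insert G D v u).1 (h hu)).2 hvu

theorem exists_grundy : ∀ n : ℕ, ∀ D : Set V, (und G D).ncard = n → ∃ m, HasGrundy G D m := by
  intro n
  induction n using Nat.strong_induction_on with
  | _ n ih =>
    intro D hD
    have h : ∀ v, ∃ m, Legal G D v → HasGrundy G (insert v D) m := by
      intro v
      by_cases hv : Legal G D v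
      · obtain ⟨m, hm⟩ := ih _ (hD ▸ und_lt G D v hv) (insert v D) rfl
        exact ⟨m, fun _ => hm⟩
      · exact ⟨0, fun h => absurd h hv⟩
    choose f hf using h
    set S : Set ℕ := {k | ∀ v, Legal G D v → f v ≠ k} with hS
    have hne : S.Nonempty := by
      have hfin : (Set.range f).Finite := Set.finite_range f
      obtain ⟨k, hk⟩ := hfin.exists_notMem
      exact ⟨k, fun v _ h => hk ⟨v, h⟩⟩
    refine ⟨sInf S, HasGrundy.mk D _ f hf (Nat.sInf_mem hne) ?_⟩
    intro k hk
    by_contra hcon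
    push Not at hcon
    exact absurd (Nat.sInf_le (show k ∈ S from fun v hv => hcon v hv)) (not_le.2 hk)

omit [Finite V] in
theorem grundy_unique {D : Set V} {n m : ℕ} (h : HasGrundy G D n) (h' : HasGrundy G D m) :
    n = m := by
  induction h generalizing m with
  | mk D n f h hne hlt ih =>
    cases h' with
    | mk _ _ f' g' gne glt =>
      have hff : ∀ v, Legal G D v → f v = f' v := fun v hv => ih v hv (g' v hv)
      rcases lt_trichotomy n m with hlt' | heq | hgt
      · obtain ⟨v, hv, hv'⟩ := glt n hlt'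
        exact absurd ((hff v hv).trans hv') (hne v hv)
      · exact heq
      · obtain ⟨v, hv, hv'⟩ := hlt m hgt
        exact absurd ((hff v hv).symm.trans hv') (gne v hv)

/-- The Grundy value. -/
noncomputable def gr (D : Set V) : ℕ := Classical.choose (exists_grundy G _ D rfl)

theorem gr_spec (D : Set V) : HasGrundy G D (gr G D) :=
  Classical.choose_spec (exists_grundy G _ D rfl)

theorem gr_eq_iff (D : Set V) (n : ℕ) : HasGrundy G D n ↔ n = gr G D := by
  constructor
  · intro h; exact grundy_unique G h (gr_spec G D)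
  · rintro rfl; exact gr_spec G D

theorem gr_ne (D : Set V) (v : V) (hv : Legal G D v) : gr G (insert v D) ≠ gr G D := by
  have h := gr_spec G D
  generalize gr G D = n at h
  cases h with
  | mk _ _ f h hne hlt =>
    have := (gr_eq_iff G _ _).1 (h v hv)
    rw [← this]; exact hne v hv

theorem gr_lt (D : Set V) (k : ℕ) (hk : k < gr G D) :
    ∃ v, Legal G D v ∧ gr G (insert v D) = k := by
  have h := gr_spec G D
  generalize gr G D = n at h hk
  cases h with
  | mk _ _ f h hne hlt =>
    obtain ⟨v, hv, hv'⟩ := hlt k hk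
    exact ⟨v, hv, by rw [← (gr_eq_iff G _ _).1 (h v hv)]; exact hv'⟩

theorem gr_eq (D : Set V) (m : ℕ) (h1 : ∀ v, Legal G D v → gr G (insert v D) ≠ m)
    (h2 : ∀ k, k < m → ∃ v, Legal G D v ∧ gr G (insert v D) = k) : gr G D = m := by
  symm
  apply (gr_eq_iff G D m).1
  exact HasGrundy.mk D m (fun v => gr G (insert v D)) (fun v _ => gr_spec G _) h1 h2

theorem moverWins_of_ne : ∀ n : ℕ, ∀ D : Set V, (und G D).ncard = n → gr G D ≠ 0 →
    MoverWins G D := by
  intro n
  induction n using Nat.strong_induction_on with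
  | _ n ih =>
    intro D hD h0
    obtain ⟨v, hv, hv0⟩ := gr_lt G D 0 (Nat.pos_of_ne_zero h0)
    refine MoverWins.mk D v hv fun w hw => ?_
    have hlt1 := und_lt G D v hv
    have hlt2 := und_lt G (insert v D) w hw
    refine ih _ (by omega) _ rfl ?_
    intro h
    exact gr_ne G (insert v D) w hw (h.trans hv0.symm)

theorem ne_of_moverWins {D : Set V} (h : MoverWins G D) : gr G D ≠ 0 := by
  induction h with
  | mk D v hv h ih =>
    intro h0
    have hv0 : gr G (insert v D) = 0 := by
      by_contra hne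
      obtain ⟨w, hw, hw0⟩ := gr_lt G (insert v D) 0 (Nat.pos_of_ne_zero hne)
      exact ih w hw hw0
    exact gr_ne G D v hv (hv0.trans h0.symm)

theorem moverWins_iff (D : Set V) : MoverWins G D ↔ gr G D ≠ 0 :=
  ⟨ne_of_moverWins G, moverWins_of_ne G _ D rfl⟩

theorem aliceWins_iff : AliceWins G ↔ gr G ∅ ≠ 0 := moverWins_iff G ∅

theorem bobWins_iff : BobWins G ↔ gr G ∅ = 0 := by
  constructor
  · intro h
    by_contra hne
    obtain ⟨v, hv, hv0⟩ := gr_lt G ∅ 0 (Nat.pos_of_ne_zero hne)
    exact ne_of_moverWins G (h v hv) hv0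
  · intro h v hv
    apply (moverWins_iff G _).2
    intro h'
    exact gr_ne G ∅ v hv (h'.trans h.symm)

end Pool.Agent.NDG25
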