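import Pool.Agent.NDG25.Count

/-! The Grundy value of a position that satisfies the invariant. -/

namespace Pool.Agent.NDG25

open Classical

variable {V : Type*} [Fintype V] (G : SimpleGraph V)

/-- The group of nimbers below 4. -/
abbrev A : Type := ZMod 2 × ZMod 2

/-- The Grundy value of a star with `n` leaves whose centre is dominated. -/
def s (n : ℕ) : A := if n = 0 then 0 else if n % 2 = 1 then (1, 0) else (0, 1)

/-- The number of a nimber. -/
def val (p : A) : ℕ := p.1.val + 2 * p.2.val

theorem val_inj : ∀ p q : A, val p = val q → p = q := by decide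

theorem s_ne (n : ℕ) (h : 1 ≤ n) : s n ≠ 0 := by
  unfold s
  rw [if_neg (by omega)]
  split_ifs <;> decide

theorem s_pred (n : ℕ) (h : 2 ≤ n) : s n + s (n - 1) = (1, 1) := by
  unfold s
  rcases Nat.mod_two_eq_zero_or_one n with h1 | h1
  · rw [if_neg (show ¬ n = 0 by omega), if_neg (show ¬ n % 2 = 1 by omega),
      if_neg (show ¬ n - 1 = 0 by omega), if_pos (show (n - 1) % 2 = 1 by omega)]
    decide
  · rw [if_neg (show ¬ n = 0 by omega), if_pos h1,
      if_neg (show ¬ n - 1 = 0 by omega), if_neg (show ¬ (n - 1) % 2 = 1 by omega)]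
    decide

theorem s_one : s 1 + s 0 = (1, 0) := by decide

theorem s_fst (n : ℕ) (h : (s n).1 ≠ 0) : s n = (1, 0) ∧ 1 ≤ n := by
  unfold s at h ⊢
  split_ifs at h ⊢ with h1 h2
  · exact absurd rfl h
  · exact ⟨rfl, by omega⟩
  · exact absurd rfl h

theorem s_snd (n : ℕ) (h : (s n).2 ≠ 0) : s n = (0, 1) ∧ 2 ≤ n := by
  unfold s at h ⊢
  split_ifs at h ⊢ with h1 h2
  · exact absurd rfl h
  · exact absurd rfl h
  · exact ⟨rfl, by omega⟩

/-- The summand of the vertex `v`. -/
noncomputable def term (D : Set V) (v : V) : A := if IsLeaf G v then 0 else s (lf G D v)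

/-- The nim-sum over all non-leaf vertices. -/
noncomputable def X (D : Set V) : A := ∑ v, term G D v

theorem A_add_self : ∀ a : A, a + a = 0 := by decide

omit G in
theorem sum_change (f f' : V → A) (v : V) (h : ∀ w, w ≠ v → f' w = f w) :
    ∑ w, f' w = ∑ w, f w + f v + f' v := by
  rw [← Finset.add_sum_erase Finset.univ f (Finset.mem_univ v),
    ← Finset.add_sum_erase Finset.univ f' (Finset.mem_univ v)]
  have : ∑ w ∈ Finset.univ.erase v, f' w = ∑ w ∈ Finset.univ.erase v, f w :=
    Finset.sum_congr rfl fun w hw => h w (Finset.ne_of_mem_erase hw)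
  rw [this]
  have h2 := A_add_self (f v)
  calc f' v + ∑ w ∈ Finset.univ.erase v, f w
      = (f v + f v) + (f' v + ∑ w ∈ Finset.univ.erase v, f w) := by rw [h2, zero_add]
    _ = f v + ∑ w ∈ Finset.univ.erase v, f w + f v + f' v := by abel

theorem X_inner (D : Set V) (v : V) (hv : ¬ IsLeaf G v) :
    X G (insert v D) = X G D + s (lf G D v) := by
  unfold X
  rw [sum_change (term G D) (term G (insert v D)) v]
  · have h1 : term G D v = s (lf G D v) := if_neg hv
    have h2 : term G (insert v D) v = 0 := by
      rw [term, if_neg hv, lf_inner_self]; rfl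
    rw [h1, h2, add_zero]
  · intro w hw
    unfold term
    split_ifs with h
    · rfl
    · rw [lf_inner_other G D v w hv hw]

theorem X_leaf (hK : NoK2 G) (D : Set V) (x c : V) (hx : IsLeaf G x) (hc : G.Adj c x)
    (hxD : x ∈ und G D) :
    X G (insert x D) = X G D + (s (lf G D c) + s (lf G D c - 1)) := by
  have hcl : ¬ IsLeaf G c := hK x c hc.symm hx
  unfold X
  rw [sum_change (term G D) (term G (insert x D)) c]
  · have h1 : term G D c = s (lf G D c) := if_neg hcl
    have h2 : term G (insert x D) c = s (lf G D c - 1) := by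
      rw [term, if_neg hcl, lf_leaf_self G hK D x c hx hc hxD]
    rw [h1, h2, add_assoc]
  · intro w hw
    unfold term
    split_ifs with h
    · rfl
    · rw [lf_leaf_other G hK D x c w hx hc hw]

theorem exists_odd (D : Set V) (h : (X G D).1 ≠ 0) :
    ∃ v, ¬ IsLeaf G v ∧ s (lf G D v) = (1, 0) ∧ 1 ≤ lf G D v := by
  by_contra hcon
  apply h
  unfold X
  rw [Prod.fst_sum]
  apply Finset.sum_eq_zero
  intro v _
  by_contra hv
  unfold term at hv
  split_ifs at hv with hl
  · exact hv rfl
  · exact hcon ⟨v, hl, s_fst _ hv⟩

theorem exists_even (D : Set V) (h : (X G D).2 ≠ 0) :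
    ∃ v, ¬ IsLeaf G v ∧ s (lf G D v) = (0, 1) ∧ 2 ≤ lf G D v := by
  by_contra hcon
  apply h
  unfold X
  rw [Prod.snd_sum]
  apply Finset.sum_eq_zero
  intro v _
  by_contra hv
  unfold term at hv
  split_ifs at hv with hl
  · exact hv rfl
  · exact hcon ⟨v, hl, s_snd _ hv⟩

theorem legal_inner (D : Set V) (v : V) (h : 1 ≤ lf G D v) : Legal G D v := by
  obtain ⟨x, h1, h2, h3⟩ := exists_leaf G D v h
  exact (legal_iff G D v).2 ⟨x, h3, Or.inr h1⟩

omit [Fintype V] in
theorem legal_leaf (D : Set V) (x : V) (h : x ∈ und G D) : Legal G D x :=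
  (legal_iff G D x).2 ⟨x, h, Or.inl rfl⟩

/-- From a good position whose nim-sum has the bit 2 there is a leaf move to a good
position whose nim-sum differs by 3. -/
theorem exists_leafmove (hK : NoK2 G) (D : Set V) (hG : Good G D) (h : (X G D).2 ≠ 0) :
    ∃ x, Legal G D x ∧ Good G (insert x D) ∧ X G (insert x D) = X G D + (1, 1) := by
  by_cases hF : ∃ w, ¬ IsLeaf G w ∧ w ∈ und G D
  · obtain ⟨w, hw, hwD⟩ := hF
    have h2 := (hG.2 w hw).2 hwD
    obtain ⟨x, hx1, hx2, hx3⟩ := exists_leaf G D w (by omega)
    refine ⟨x, legal_leaf G D x hx3, good_leaf G hK D x w hx2 hx1 hx3 hG (Or.inr h2), ?_⟩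
    rw [X_leaf G hK D x w hx2 hx1 hx3, s_pred _ (by omega)]
  · obtain ⟨v, hv, _, hv2⟩ := exists_even G D h
    obtain ⟨x, hx1, hx2, hx3⟩ := exists_leaf G D v (by omega)
    refine ⟨x, legal_leaf G D x hx3, good_leaf G hK D x v hx2 hx1 hx3 hG (Or.inl ?_), ?_⟩
    · by_contra hne
      obtain ⟨w, _, hw1, hw2⟩ := exists_dn G D v (Nat.pos_of_ne_zero hne)
      exact hF ⟨w, hw1, hw2⟩
    · rw [X_leaf G hK D x v hx2 hx1 hx3, s_pred _ hv2]

theorem A_ne (a b : A) (hb : b ≠ 0) : val (a + b) ≠ val a := by
  intro h
  apply hb
  have := val_inj _ _ h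
  exact left_eq_add.1 this.symm

theorem key (hK : NoK2 G) : ∀ n : ℕ, ∀ D : Set V, (und G D).ncard = n → Good G D →
    gr G D = val (X G D) := by
  intro n
  induction n using Nat.strong_induction_on with
  | _ n ih =>
    intro D hD hG
    have IH : ∀ y, Legal G D y → Good G (insert y D) →
        gr G (insert y D) = val (X G (insert y D)) := fun y hy hg =>
      ih _ (hD ▸ und_lt G D y hy) _ rfl hg
    have opt1 : ∀ v, ¬ IsLeaf G v → 1 ≤ lf G D v →
        Legal G D v ∧ gr G (insert v D) = val (X G D + s (lf G D v)) := by
      intro v hv h1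
      refine ⟨legal_inner G D v h1, ?_⟩
      rw [IH v (legal_inner G D v h1) (good_inner G D v hv hG), X_inner G D v hv]
    apply gr_eq
    · -- no option has the value `X`
      intro y hy
      by_cases hyl : IsLeaf G y
      · -- leaf move
        obtain ⟨c, hc, -⟩ := id hyl
        have hcy : G.Adj c y := hc.symm
        have hcl : ¬ IsLeaf G c := hK y c hc hyl
        have hyD : y ∈ und G D := by
          obtain ⟨u, hu, hyu⟩ := (legal_iff G D y).1 hy
          rcases (inNbhd_leaf G hyl hcy).1 hyu with rfl | rfl
          · exact hu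
          · exact hG.1 _ y hyl hcy hu
        have h1 := lf_pos G D c y hcy hyl hyD
        have hX := X_leaf G hK D y c hyl hcy hyD
        have hne : s (lf G D c) + s (lf G D c - 1) ≠ 0 := by
          rcases Nat.lt_or_ge (lf G D c) 2 with h2 | h2
          · have : lf G D c = 1 := by omega
            rw [this, s_one]; decide
          · rw [s_pred _ h2]; decide
        by_cases hroom : dn G D c = 0 ∨ dn G D c + 2 ≤ lf G D c
        · rw [IH y hy (good_leaf G hK D y c hyl hcy hyD hG hroom), hX]
          exact A_ne _ _ hne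
        · push Not at hroom
          have hcD : c ∉ und G D := by
            intro hcD
            have := (hG.2 c hcl).2 hcD
            omega
          have h3 : dn G D c + 1 = lf G D c := by
            rcases (hG.2 c hcl).1 hcD with h4 | h4
            · exact absurd h4 hroom.1
            · omega
          obtain ⟨w, hcw, hw, hwD⟩ := exists_dn G D c (Nat.pos_of_ne_zero hroom.1)
          have hwc : w ≠ c := hcw.ne'
          have h5 := (hG.2 w hw).2 hwD
          obtain ⟨x', hx1, hx2, hx3⟩ := exists_leaf G D w (by omega)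
          have hwD' : w ∈ und G (insert y D) := by
            rw [mem_und_insert, inNbhd_leaf G hyl hcy]
            refine ⟨hwD, ?_⟩
            rintro (rfl | rfl)
            · exact hw hyl
            · exact hwc rfl
          have hx'D' : x' ∈ und G (insert y D) :=
            full_insert G D y hG.1 w x' hx2 hx1 hwD'
          have hgood := good_restore G hK D y c x' w hyl hcy hyD hG hcD h3 hcw hw hwD hx2 hx1
          have hlw : lf G (insert y D) w = lf G D w := lf_leaf_other G hK D y c w hyl hcy hwc
          have hX2 := X_leaf G hK (insert y D) x' w hx2 hx1 hx'D'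
          have hXe : X G (insert x' (insert y D)) = X G D := by
            rw [hX2, hlw, hX, s_pred _ (show 2 ≤ lf G D w by omega),
              s_pred _ (show 2 ≤ lf G D c by omega), add_assoc]
            have : ((1, 1) : A) + (1, 1) = 0 := by decide
            rw [this, add_zero]
          have hleg := legal_leaf G (insert y D) x' hx'D'
          have hlt1 := und_lt G D y hy
          have hlt2 := und_lt G (insert y D) x' hleg
          have hval := ih _ (by omega) (insert x' (insert y D)) rfl hgood
          intro h
          apply gr_ne G (insert y D) x' hleg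
          rw [h, hval, hXe]
      · -- inner move
        have h1 : 1 ≤ lf G D y := by
          by_contra hcon
          have hO := hG.2 y hyl
          have hyD : y ∉ und G D := fun h => by have := hO.2 h; omega
          obtain ⟨u, hu, hyu⟩ := (legal_iff G D y).1 hy
          rcases hyu with rfl | hyu
          · exact hyD hu
          · by_cases hul : IsLeaf G u
            · have := lf_pos G D y u hyu hul hu; omega
            · have := dn_pos G D y u hyu hul hu
              rcases hO.1 hyD with h4 | h4 <;> omega
        rw [(opt1 y hyl h1).2]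
        exact A_ne _ _ (s_ne _ h1)
    · -- all smaller values are options
      intro k hk
      have P1 : (X G D).1 ≠ 0 → ∃ v, Legal G D v ∧ gr G (insert v D) = val (X G D + (1, 0)) := by
        intro h
        obtain ⟨v, hv, hs, h1⟩ := exists_odd G D h
        exact ⟨v, (opt1 v hv h1).1, by rw [(opt1 v hv h1).2, hs]⟩
      have P2 : (X G D).2 ≠ 0 → ∃ v, Legal G D v ∧ gr G (insert v D) = val (X G D + (0, 1)) := by
        intro h
        obtain ⟨v, hv, hs, h1⟩ := exists_even G D h
        exact ⟨v, (opt1 v hv (by omega)).1, by rw [(opt1 v hv (by omega)).2, hs]⟩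
      have P3 : (X G D).2 ≠ 0 → ∃ v, Legal G D v ∧ gr G (insert v D) = val (X G D + (1, 1)) := by
        intro h
        obtain ⟨x, hx1, hx2, hx3⟩ := exists_leafmove G hK D hG h
        exact ⟨x, hx1, by rw [IH x hx1 hx2, hx3]⟩
      generalize X G D = p at hk P1 P2 P3
      revert P1 P2 P3 hk
      have hp : p = (0, 0) ∨ p = (1, 0) ∨ p = (0, 1) ∨ p = (1, 1) := by
        revert p; decide
      rcases hp with rfl | rfl | rfl | rfl
      · intro hk
        exact absurd hk (by simp [val])
      · intro hk P1 _ _
        have hk' : k = val (((1, 0) : A) + (1, 0)) := by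
          have e1 : val ((1, 0) : A) = 1 := by decide
          have e2 : val (((1, 0) : A) + (1, 0)) = 0 := by decide
          omega
        rw [hk']
        exact P1 (by decide)
      · intro hk _ P2 P3
        have e1 : val ((0, 1) : A) = 2 := by decide
        have e2 : val (((0, 1) : A) + (0, 1)) = 0 := by decide
        have e3 : val (((0, 1) : A) + (1, 1)) = 1 := by decide
        have hk' : k = val (((0, 1) : A) + (0, 1)) ∨ k = val (((0, 1) : A) + (1, 1)) := by omega
        rcases hk' with hk' | hk' <;> rw [hk']
        · exact P2 (by decide)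
        · exact P3 (by decide)
      · intro hk P1 P2 P3
        have e1 : val ((1, 1) : A) = 3 := by decide
        have e2 : val (((1, 1) : A) + (0, 1)) = 1 := by decide
        have e3 : val (((1, 1) : A) + (1, 1)) = 0 := by decide
        have e4 : val (((1, 1) : A) + (1, 0)) = 2 := by decide
        have hk' : k = val (((1, 1) : A) + (0, 1)) ∨ k = val (((1, 1) : A) + (1, 1)) ∨
          k = val (((1, 1) : A) + (1, 0)) := by omega
        rcases hk' with hk' | hk' | hk' <;> rw [hk']
        · exact P2 (by decide)
        · exact P3 (by decide)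
        · exact P1 (by decide)

end Pool.Agent.NDG25
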