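import Pool.Agent.NDG25.Key

/-! The Grundy value and the winner. -/

namespace Pool.Agent.NDG25

open Classical

theorem noK2_of_connected {V : Type*} [Finite V] (G : SimpleGraph V) (h : G.Connected)
    (h3 : 3 ≤ Nat.card V) : NoK2 G := by
  intro x y hxy hx hy
  have key : ∀ u z : V, G.Walk u z → (u = x ∨ u = y) → (z = x ∨ z = y) := by
    intro u z p
    induction p with
    | nil => exact id
    | cons hadj p ih =>
      rintro (rfl | rfl)
      · exact ih (Or.inr (hx.unique hadj hxy))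
      · exact ih (Or.inl (hy.unique hadj hxy.symm))
  have hall : (Set.univ : Set V) ⊆ {x, y} := by
    intro z _
    obtain ⟨p⟩ := h.preconnected x z
    exact key x z p (Or.inl rfl)
  have h1 := Set.ncard_le_ncard hall (Set.toFinite _)
  rw [Set.ncard_univ] at h1
  have h2 : ({x, y} : Set V).ncard ≤ 2 := Set.ncard_insert_le x {y} |>.trans (by simp)
  omega

theorem ncard_eq_card_filter {V : Type*} [Fintype V] (p : V → Prop) :
    {v | p v}.ncard = (Finset.univ.filter p).card := by
  rw [← Set.ncard_coe_finset]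
  congr 1
  ext v
  simp

variable {V : Type*}

theorem und_empty (G : SimpleGraph V) (u : V) : u ∈ und G ∅ := by
  rintro ⟨v, hv, _⟩
  exact hv

theorem lf_empty (G : SimpleGraph V) (v : V) : lf G ∅ v = leafDeg G v := by
  unfold lf leafDeg
  congr 1
  ext x
  exact ⟨fun h => ⟨h.1, h.2.1⟩, fun h => ⟨h.1, h.2, und_empty G x⟩⟩

theorem dn_empty (G : SimpleGraph V) (v : V) : dn G ∅ v = innerDeg G v := by
  unfold dn innerDeg
  congr 1
  ext x
  exact ⟨fun h => ⟨h.1, h.2.1⟩, fun h => ⟨h.1, h.2, und_empty G x⟩⟩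

theorem gr_empty [Finite V] (G : SimpleGraph V)
    (h1 : (∀ x y, G.Adj x y → IsLeaf G x → ¬ IsLeaf G y) ∨ (G.Connected ∧ 3 ≤ Nat.card V))
    (h2 : ∀ v, ¬ IsLeaf G v → innerDeg G v + 2 ≤ leafDeg G v) :
    gr G ∅ = oddInner G % 2 + 2 * (evenInner G % 2) := by
  cases nonempty_fintype V
  have hK : NoK2 G := by
    rcases h1 with h1 | h1
    · exact h1
    · exact noK2_of_connected G h1.1 h1.2
  have hG : Good G ∅ := by
    refine ⟨fun c x _ _ _ => und_empty G x, fun v hv => ⟨fun h => absurd (und_empty G v) h, ?_⟩⟩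
    intro _
    rw [lf_empty, dn_empty]
    exact h2 v hv
  rw [key G hK _ ∅ rfl hG]
  have e1 : (X G ∅).1 = (oddInner G : ZMod 2) := by
    unfold X oddInner
    rw [Prod.fst_sum, ncard_eq_card_filter, ← Finset.sum_boole]
    refine Finset.sum_congr rfl fun v _ => ?_
    unfold term
    rw [lf_empty]
    by_cases hv : IsLeaf G v
    · rw [if_pos hv, if_neg (fun h => h.1 hv)]; rfl
    · have h3 := h2 v hv
      rw [if_neg hv]
      unfold s
      rw [if_neg (by omega)]
      by_cases ho : leafDeg G v % 2 = 1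
      · rw [if_pos ho, if_pos ⟨hv, Nat.odd_iff.2 ho⟩]
      · rw [if_neg ho, if_neg (fun h => ho (Nat.odd_iff.1 h.2))]
  have e2 : (X G ∅).2 = (evenInner G : ZMod 2) := by
    unfold X evenInner
    rw [Prod.snd_sum, ncard_eq_card_filter, ← Finset.sum_boole]
    refine Finset.sum_congr rfl fun v _ => ?_
    unfold term
    rw [lf_empty]
    by_cases hv : IsLeaf G v
    · rw [if_pos hv, if_neg (fun h => h.1 hv)]; rfl
    · have h3 := h2 v hv
      rw [if_neg hv]
      unfold s
      rw [if_neg (by omega)]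
      by_cases ho : leafDeg G v % 2 = 1
      · rw [if_pos ho, if_neg (fun h => by have := Nat.even_iff.1 h.2; omega)]
      · rw [if_neg ho, if_pos ⟨hv, Nat.even_iff.2 (by omega)⟩]
  unfold val
  rw [e1, e2, ZMod.val_natCast, ZMod.val_natCast]

theorem main [Finite V] (G : SimpleGraph V)
    (h1 : (∀ x y, G.Adj x y → IsLeaf G x → ¬ IsLeaf G y) ∨ (G.Connected ∧ 3 ≤ Nat.card V))
    (h2 : ∀ v, ¬ IsLeaf G v → innerDeg G v + 2 ≤ leafDeg G v) :
    (∀ n, HasGrundy G ∅ n ↔ n = oddInner G % 2 + 2 * (evenInner G % 2)) ∧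
    (BobWins G ↔ Even (oddInner G) ∧ Even (evenInner G)) ∧
    (AliceWins G ↔ ¬ (Even (oddInner G) ∧ Even (evenInner G))) := by
  have hg := gr_empty G h1 h2
  refine ⟨fun n => by rw [gr_eq_iff, hg], ?_, ?_⟩
  · rw [bobWins_iff, hg, Nat.even_iff, Nat.even_iff]
    omega
  · rw [aliceWins_iff, hg, Nat.even_iff, Nat.even_iff]
    omega

end Pool.Agent.NDG25
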