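import Pool.Agent.NDG25.Strong

/-! The case where all numbers of leaf neighbours are odd and at least 3: then it is enough
that every non-leaf vertex has at least as many leaf neighbours as non-leaf neighbours. -/

namespace Pool.Agent.NDG25

open Classical

section Inv

variable {V : Type*} [Finite V] (G : SimpleGraph V)

/-- The invariant of the odd case. -/
def Good3 (D : Set V) : Prop :=
  Full G D ∧ ∀ v, ¬ IsLeaf G v → v ∉ und G D → dn G D v ≤ lf G D v

/-- Every non-leaf vertex has an odd number, at least 3, of leaf neighbours, and at least as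
many leaf neighbours as non-leaf neighbours. -/
def OddLeafy : Prop :=
  ∀ v, ¬ IsLeaf G v → innerDeg G v ≤ leafDeg G v ∧ Odd (leafDeg G v) ∧ 3 ≤ leafDeg G v

/-- Choosing the non-leaf vertex `v` leads to a good position if the only non-leaf vertex at
which the invariant fails is a neighbour `c` of `v` and it fails there by one only. -/
theorem good3_inner' (hS : OddLeafy G) (D : Set V) (v c : V) (hv : ¬ IsLeaf G v)
    (hF : Full G D) (hvD : v ∈ und G D) (hcv : G.Adj c v)
    (hc : dn G D c ≤ lf G D c + 1)
    (h : ∀ w, w ≠ c → ¬ IsLeaf G w → w ∉ und G D → dn G D w ≤ lf G D w) :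
    Good3 G (insert v D) := by
  refine ⟨full_insert G D v hF, fun w hw hwD' => ?_⟩
  by_cases hwv : w = v
  · subst hwv
    rw [dn_inner_self]
    exact Nat.zero_le _
  · have h1 := dn_le G D v w
    have h2 := lf_inner_other G D v w hv hwv
    by_cases hwD : w ∈ und G D
    · have hadj : G.Adj v w := by
        by_contra hcon
        apply hwD'
        rw [mem_und_insert]
        refine ⟨hwD, ?_⟩
        rintro (h3 | h3)
        · exact hwv h3
        · exact hcon h3
      have hvD : v ∉ und G (insert v D) := fun h3 =>
        ((mem_und_insert G D v v).1 h3).2 (Or.inl rfl)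
      have h3 := dn_lt_inner G (insert v D) w v hadj.symm hv hvD
      have h4 := lf_full G D hF w hwD
      have h5 := (hS w hw).1
      omega
    · by_cases hwc : w = c
      · subst hwc
        have h3 := dn_lt G D v w v hcv hv hvD (Or.inl rfl)
        omega
      · have h3 := h w hwc hw hwD
        omega

theorem good3_inner (hS : OddLeafy G) (D : Set V) (v : V) (hv : ¬ IsLeaf G v)
    (h : Good3 G D) : Good3 G (insert v D) := by
  refine ⟨full_insert G D v h.1, fun w hw hwD' => ?_⟩
  by_cases hwv : w = v
  · subst hwv
    rw [dn_inner_self]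
    exact Nat.zero_le _
  · have h1 := dn_le G D v w
    have h2 := lf_inner_other G D v w hv hwv
    by_cases hwD : w ∈ und G D
    · have hadj : G.Adj v w := by
        by_contra hcon
        apply hwD'
        rw [mem_und_insert]
        refine ⟨hwD, ?_⟩
        rintro (h3 | h3)
        · exact hwv h3
        · exact hcon h3
      have hvD : v ∉ und G (insert v D) := fun h3 =>
        ((mem_und_insert G D v v).1 h3).2 (Or.inl rfl)
      have h3 := dn_lt_inner G (insert v D) w v hadj.symm hv hvD
      have h4 := lf_full G D h.1 w hwD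
      have h5 := (hS w hw).1
      omega
    · have h3 := h.2 w hw hwD
      omega

theorem ok3_leaf_other (hK : NoK2 G) (D : Set V) (x c w : V) (hx : IsLeaf G x) (hc : G.Adj c x)
    (hwc : w ≠ c) (hO : dn G D w ≤ lf G D w) :
    dn G (insert x D) w ≤ lf G (insert x D) w := by
  have h1 := dn_le G D x w
  have h2 := lf_leaf_other G hK D x c w hx hc hwc
  omega

theorem good3_leaf (hK : NoK2 G) (D : Set V) (x c : V) (hx : IsLeaf G x) (hc : G.Adj c x)
    (hxD : x ∈ und G D) (h : Good3 G D)
    (hroom : dn G D c = 0 ∨ dn G D c + 1 ≤ lf G D c) : Good3 G (insert x D) := by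
  refine ⟨full_insert G D x h.1, fun w hw hwD => ?_⟩
  by_cases hwc : w = c
  · subst hwc
    have h1 := dn_le G D x w
    have h2 := lf_leaf_self G hK D x w hx hc hxD
    omega
  · rw [mem_leaf_other G D x c w hx hc hw hwc] at hwD
    exact ok3_leaf_other G hK D x c w hx hc hwc (h.2 w hw hwD)

theorem good3_restore (hK : NoK2 G) (hS : OddLeafy G) (D : Set V) (x c x' w : V)
    (hx : IsLeaf G x) (hc : G.Adj c x) (hxD : x ∈ und G D) (h : Good3 G D)
    (hroom : dn G D c = lf G D c) (hcw : G.Adj c w) (hw : ¬ IsLeaf G w)
    (hwD : w ∈ und G D) (hx' : IsLeaf G x') (hwx' : G.Adj w x') :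
    Good3 G (insert x' (insert x D)) := by
  have hwc : w ≠ c := hcw.ne'
  have hcl : ¬ IsLeaf G c := hK x c hc.symm hx
  have hF1 := full_insert G D x h.1
  refine ⟨full_insert G _ x' hF1, fun v hv hvD => ?_⟩
  have hwD' : w ∈ und G (insert x D) := (mem_leaf_other G D x c w hx hc hw hwc).2 hwD
  have hx'D' : x' ∈ und G (insert x D) := hF1 w x' hx' hwx' hwD'
  by_cases hvc : v = c
  · subst hvc
    have h1 := dn_le G D x v
    have h2 := lf_leaf_self G hK D x v hx hc hxD
    have h3 := dn_lt G (insert x D) x' v w hcw hw hwD' (Or.inr hwx'.symm)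
    have h4 := lf_leaf_other G hK (insert x D) x' w v hx' hwx' hwc.symm
    omega
  · by_cases hvw : v = w
    · subst hvw
      have hcD' : c ∉ und G (insert x D) := fun h3 =>
        ((mem_und_insert G D x c).1 h3).2 (Or.inr hc.symm)
      have h1 := dn_le G (insert x D) x' v
      have h2 := lf_leaf_self G hK (insert x D) x' v hx' hwx' hx'D'
      have h3 := dn_lt_inner G (insert x D) v c hcw.symm hcl hcD'
      have h4 := lf_full G (insert x D) hF1 v hwD'
      have h5 := (hS v hv).1
      omega
    · rw [mem_leaf_other G (insert x D) x' w v hx' hwx' hv hvw,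
        mem_leaf_other G D x c v hx hc hv hvc] at hvD
      exact ok3_leaf_other G hK (insert x D) x' w v hx' hwx' hvw
        (ok3_leaf_other G hK D x c v hx hc hvc (h.2 v hv hvD))

end Inv

section Key

variable {V : Type*} [Fintype V] (G : SimpleGraph V)

theorem s_odd (n : ℕ) (h : Odd n) : s n = (1, 0) := by
  unfold s
  have h1 := Nat.odd_iff.1 h
  rw [if_neg (by omega), if_pos h1]

theorem exists_leafmove3 (hK : NoK2 G) (hS : OddLeafy G) (D : Set V) (hG : Good3 G D)
    (h : (X G D).2 ≠ 0) :
    ∃ x, Legal G D x ∧ Good3 G (insert x D) ∧ X G (insert x D) = X G D + (1, 1) := by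
  obtain ⟨v, hv, hs, hl⟩ := exists_even G D h
  have hvD : v ∉ und G D := by
    intro hvD
    rw [lf_full G D hG.1 v hvD, s_odd _ (hS v hv).2.1] at hs
    exact absurd hs (by decide)
  by_cases hroom : dn G D v + 1 ≤ lf G D v
  · obtain ⟨x, hx1, hx2, hx3⟩ := exists_leaf G D v (by omega)
    refine ⟨x, legal_leaf G D x hx3, good3_leaf G hK D x v hx2 hx1 hx3 hG (Or.inr hroom), ?_⟩
    rw [X_leaf G hK D x v hx2 hx1 hx3, s_pred _ hl]
  · obtain ⟨w, hvw, hw, hwD⟩ := exists_dn G D v (by omega)
    have h1 := dn_lt_inner G D w v hvw.symm hv hvD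
    have h2 := lf_full G D hG.1 w hwD
    have h3 := hS w hw
    obtain ⟨x, hx1, hx2, hx3⟩ := exists_leaf G D w (by omega)
    refine ⟨x, legal_leaf G D x hx3, good3_leaf G hK D x w hx2 hx1 hx3 hG (Or.inr (by omega)), ?_⟩
    rw [X_leaf G hK D x w hx2 hx1 hx3, s_pred _ (by omega)]

theorem key3 (hK : NoK2 G) (hS : OddLeafy G) : ∀ n : ℕ, ∀ D : Set V, (und G D).ncard = n →
    Good3 G D → gr G D = val (X G D) := by
  intro n
  induction n using Nat.strong_induction_on with
  | _ n ih =>
    intro D hD hG
    have IH : ∀ y, Legal G D y → Good3 G (insert y D) →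
        gr G (insert y D) = val (X G (insert y D)) := fun y hy hg =>
      ih _ (hD ▸ und_lt G D y hy) _ rfl hg
    have opt1 : ∀ v, ¬ IsLeaf G v → 1 ≤ lf G D v →
        Legal G D v ∧ gr G (insert v D) = val (X G D + s (lf G D v)) := by
      intro v hv h1
      refine ⟨legal_inner G D v h1, ?_⟩
      rw [IH v (legal_inner G D v h1) (good3_inner G hS D v hv hG), X_inner G D v hv]
    apply gr_eq
    · -- no option has the value `X`
      intro y hy
      by_cases hyl : IsLeaf G y
      · -- leaf move
        obtain ⟨c, hc, -⟩ := id hyl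
        have hcy : G.Adj c y := hc.symm
        have hcl : ¬ IsLeaf G c := hK y c hc hyl
        have hyD : y ∈ und G D := by
          obtain ⟨u, hu, hyu⟩ := (legal_iff G D y).1 hy
          rcases (inNbhd_leaf G hyl hcy).1 hyu with rfl | rfl
          · exact hu
          · exact hG.1 _ y hyl hcy hu
        have h1 := lf_pos G D c y hcy hyl hyD
        have hX := X_leaf G hK D y c hyl hcy hyD
        have hne : s (lf G D c) + s (lf G D c - 1) ≠ 0 := by
          rcases Nat.lt_or_ge (lf G D c) 2 with h2 | h2
          · have : lf G D c = 1 := by omega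
            rw [this, s_one]; decide
          · rw [s_pred _ h2]; decide
        by_cases hroom : dn G D c = 0 ∨ dn G D c + 1 ≤ lf G D c
        · rw [IH y hy (good3_leaf G hK D y c hyl hcy hyD hG hroom), hX]
          exact A_ne _ _ hne
        · push Not at hroom
          have h3 : dn G D c = lf G D c := by
            by_cases hcD : c ∈ und G D
            · have e1 := lf_full G D hG.1 c hcD
              have e2 := (hS c hcl).1
              have e3 := dn_le_inner G D c
              omega
            · have e1 := hG.2 c hcl hcD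
              omega
          obtain ⟨w, hcw, hw, hwD⟩ := exists_dn G D c (Nat.pos_of_ne_zero hroom.1)
          have hwc : w ≠ c := hcw.ne'
          have h5 := lf_full G D hG.1 w hwD
          have h6 := hS w hw
          have hwD' : w ∈ und G (insert y D) :=
            (mem_leaf_other G D y c w hyl hcy hw hwc).2 hwD
          have hlw : lf G (insert y D) w = lf G D w := lf_leaf_other G hK D y c w hyl hcy hwc
          have hlt1 := und_lt G D y hy
          by_cases hc2 : 2 ≤ lf G D c
          · obtain ⟨x', hx1, hx2, hx3⟩ := exists_leaf G D w (by omega)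
            have hx'D' : x' ∈ und G (insert y D) :=
              full_insert G D y hG.1 w x' hx2 hx1 hwD'
            have hgood := good3_restore G hK hS D y c x' w hyl hcy hyD hG h3 hcw hw hwD hx2 hx1
            have hX2 := X_leaf G hK (insert y D) x' w hx2 hx1 hx'D'
            have hXe : X G (insert x' (insert y D)) = X G D := by
              rw [hX2, hlw, hX, s_pred _ (show 2 ≤ lf G D w by omega),
                s_pred _ hc2, add_assoc]
              have : ((1, 1) : A) + (1, 1) = 0 := by decide
              rw [this, add_zero]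
            have hleg := legal_leaf G (insert y D) x' hx'D'
            have hlt2 := und_lt G (insert y D) x' hleg
            have hval := ih _ (by omega) (insert x' (insert y D)) rfl hgood
            intro h
            apply gr_ne G (insert y D) x' hleg
            rw [h, hval, hXe]
          · have hc1 : lf G D c = 1 := by omega
            have hlc : lf G (insert y D) c = lf G D c - 1 := lf_leaf_self G hK D y c hyl hcy hyD
            have hdc := dn_le G D y c
            have hgood : Good3 G (insert w (insert y D)) := by
              apply good3_inner' G hS (insert y D) w c hw (full_insert G D y hG.1) hwD' hcw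
              · omega
              · intro v hvc hv hvD
                rw [mem_leaf_other G D y c v hyl hcy hv hvc] at hvD
                exact ok3_leaf_other G hK D y c v hyl hcy hvc (hG.2 v hv hvD)
            have hX2 := X_inner G (insert y D) w hw
            have hXe : X G (insert w (insert y D)) = X G D := by
              rw [hX2, hlw, hX, hc1, h5, s_odd _ h6.2.1, show (1 - 1 : ℕ) = 0 from rfl, s_one,
                add_assoc]
              have : ((1, 0) : A) + (1, 0) = 0 := by decide
              rw [this, add_zero]
            have hleg : Legal G (insert y D) w := legal_inner G (insert y D) w (by omega)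
            have hlt2 := und_lt G (insert y D) w hleg
            have hval := ih _ (by omega) (insert w (insert y D)) rfl hgood
            intro h
            apply gr_ne G (insert y D) w hleg
            rw [h, hval, hXe]
      · -- inner move
        have h1 : 1 ≤ lf G D y := by
          by_contra hcon
          have hyD : y ∉ und G D := fun h => by
            have e1 := lf_full G D hG.1 y h
            have e2 := hS y hyl
            omega
          have hO := hG.2 y hyl hyD
          obtain ⟨u, hu, hyu⟩ := (legal_iff G D y).1 hy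
          rcases hyu with rfl | hyu
          · exact hyD hu
          · by_cases hul : IsLeaf G u
            · have := lf_pos G D y u hyu hul hu; omega
            · have := dn_pos G D y u hyu hul hu
              omega
        rw [(opt1 y hyl h1).2]
        exact A_ne _ _ (s_ne _ h1)
    · -- all smaller values are options
      intro k hk
      have P1 : (X G D).1 ≠ 0 → ∃ v, Legal G D v ∧ gr G (insert v D) = val (X G D + (1, 0)) := by
        intro h
        obtain ⟨v, hv, hs, h1⟩ := exists_odd G D h
        exact ⟨v, (opt1 v hv h1).1, by rw [(opt1 v hv h1).2, hs]⟩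
      have P2 : (X G D).2 ≠ 0 → ∃ v, Legal G D v ∧ gr G (insert v D) = val (X G D + (0, 1)) := by
        intro h
        obtain ⟨v, hv, hs, h1⟩ := exists_even G D h
        exact ⟨v, (opt1 v hv (by omega)).1, by rw [(opt1 v hv (by omega)).2, hs]⟩
      have P3 : (X G D).2 ≠ 0 → ∃ v, Legal G D v ∧ gr G (insert v D) = val (X G D + (1, 1)) := by
        intro h
        obtain ⟨x, hx1, hx2, hx3⟩ := exists_leafmove3 G hK hS D hG h
        exact ⟨x, hx1, by rw [IH x hx1 hx2, hx3]⟩
      generalize X G D = p at hk P1 P2 P3
      revert P1 P2 P3 hk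
      have hp : p = (0, 0) ∨ p = (1, 0) ∨ p = (0, 1) ∨ p = (1, 1) := by
        revert p; decide
      rcases hp with rfl | rfl | rfl | rfl
      · intro hk
        exact absurd hk (by simp [val])
      · intro hk P1 _ _
        have hk' : k = val (((1, 0) : A) + (1, 0)) := by
          have e1 : val ((1, 0) : A) = 1 := by decide
          have e2 : val (((1, 0) : A) + (1, 0)) = 0 := by decide
          omega
        rw [hk']
        exact P1 (by decide)
      · intro hk _ P2 P3
        have e1 : val ((0, 1) : A) = 2 := by decide
        have e2 : val (((0, 1) : A) + (0, 1)) = 0 := by decide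
        have e3 : val (((0, 1) : A) + (1, 1)) = 1 := by decide
        have hk' : k = val (((0, 1) : A) + (0, 1)) ∨ k = val (((0, 1) : A) + (1, 1)) := by omega
        rcases hk' with hk' | hk' <;> rw [hk']
        · exact P2 (by decide)
        · exact P3 (by decide)
      · intro hk P1 P2 P3
        have e1 : val ((1, 1) : A) = 3 := by decide
        have e2 : val (((1, 1) : A) + (0, 1)) = 1 := by decide
        have e3 : val (((1, 1) : A) + (1, 1)) = 0 := by decide
        have e4 : val (((1, 1) : A) + (1, 0)) = 2 := by decide
        have hk' : k = val (((1, 1) : A) + (0, 1)) ∨ k = val (((1, 1) : A) + (1, 1)) ∨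
          k = val (((1, 1) : A) + (1, 0)) := by omega
        rcases hk' with hk' | hk' | hk' <;> rw [hk']
        · exact P2 (by decide)
        · exact P3 (by decide)
        · exact P1 (by decide)

end Key

theorem gr_empty3 {V : Type*} [Finite V] (G : SimpleGraph V)
    (h1 : (∀ x y, G.Adj x y → IsLeaf G x → ¬ IsLeaf G y) ∨ (G.Connected ∧ 3 ≤ Nat.card V))
    (h2 : ∀ v, ¬ IsLeaf G v →
      innerDeg G v ≤ leafDeg G v ∧ Odd (leafDeg G v) ∧ 3 ≤ leafDeg G v) :
    gr G ∅ = oddInner G % 2 + 2 * (evenInner G % 2) := by
  cases nonempty_fintype V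
  have hK : NoK2 G := by
    rcases h1 with h1 | h1
    · exact h1
    · exact noK2_of_connected G h1.1 h1.2
  have hG : Good3 G ∅ :=
    ⟨fun c x _ _ _ => und_empty G x, fun v _ hv => absurd (und_empty G v) hv⟩
  rw [key3 G hK h2 _ ∅ rfl hG]
  have e1 : (X G ∅).1 = (oddInner G : ZMod 2) := by
    unfold X oddInner
    rw [Prod.fst_sum, ncard_eq_card_filter, ← Finset.sum_boole]
    refine Finset.sum_congr rfl fun v _ => ?_
    unfold term
    rw [lf_empty]
    by_cases hv : IsLeaf G v
    · rw [if_pos hv, if_neg (fun h => h.1 hv)]; rfl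
    · have h3 := h2 v hv
      rw [if_neg hv]
      unfold s
      rw [if_neg (by omega)]
      by_cases ho : leafDeg G v % 2 = 1
      · rw [if_pos ho, if_pos ⟨hv, Nat.odd_iff.2 ho⟩]
      · rw [if_neg ho, if_neg (fun h => ho (Nat.odd_iff.1 h.2))]
  have e2 : (X G ∅).2 = (evenInner G : ZMod 2) := by
    unfold X evenInner
    rw [Prod.snd_sum, ncard_eq_card_filter, ← Finset.sum_boole]
    refine Finset.sum_congr rfl fun v _ => ?_
    unfold term
    rw [lf_empty]
    by_cases hv : IsLeaf G v
    · rw [if_pos hv, if_neg (fun h => h.1 hv)]; rfl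
    · have h3 := h2 v hv
      rw [if_neg hv]
      unfold s
      rw [if_neg (by omega)]
      by_cases ho : leafDeg G v % 2 = 1
      · rw [if_pos ho, if_neg (fun h => by have := Nat.even_iff.1 h.2; omega)]
      · rw [if_neg ho, if_pos ⟨hv, Nat.even_iff.2 (by omega)⟩]
  unfold val
  rw [e1, e2, ZMod.val_natCast, ZMod.val_natCast]

theorem main3 {V : Type*} [Finite V] (G : SimpleGraph V)
    (h1 : (∀ x y, G.Adj x y → IsLeaf G x → ¬ IsLeaf G y) ∨ (G.Connected ∧ 3 ≤ Nat.card V))
    (h2 : ∀ v, ¬ IsLeaf G v →
      innerDeg G v ≤ leafDeg G v ∧ Odd (leafDeg G v) ∧ 3 ≤ leafDeg G v) :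
    (∀ n, HasGrundy G ∅ n ↔ n = {v | ¬ IsLeaf G v}.ncard % 2) ∧
    (BobWins G ↔ Even {v | ¬ IsLeaf G v}.ncard) ∧
    (AliceWins G ↔ Odd {v | ¬ IsLeaf G v}.ncard) := by
  have ho : oddInner G = {v | ¬ IsLeaf G v}.ncard := by
    unfold oddInner
    congr 1
    ext v
    exact ⟨fun h => h.1, fun h => ⟨h, (h2 v h).2.1⟩⟩
  have he : evenInner G = 0 := by
    unfold evenInner
    have : {v | ¬ IsLeaf G v ∧ Even (leafDeg G v)} = ∅ := by
      apply Set.eq_empty_of_forall_notMem
      rintro v ⟨h3, h4⟩
      exact (Nat.not_even_iff_odd.2 (h2 v h3).2.1) h4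
    rw [this, Set.ncard_empty]
  have hg := gr_empty3 G h1 h2
  rw [ho, he] at hg
  have hg' : gr G ∅ = {v | ¬ IsLeaf G v}.ncard % 2 := by omega
  refine ⟨fun n => by rw [gr_eq_iff, hg'], ?_, ?_⟩
  · rw [bobWins_iff, hg', Nat.even_iff]
  · rw [aliceWins_iff, hg', Nat.odd_iff]
    omega

end Pool.Agent.NDG25
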