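import Pool.Agent.NDG25.Main

/-! The sharper form: every non-leaf vertex has more leaf neighbours than non-leaf
neighbours. -/

namespace Pool.Agent.NDG25

open Classical

section Inv

variable {V : Type*} [Finite V] (G : SimpleGraph V)

/-- The invariant of the sharper theorem. -/
def Good2 (D : Set V) : Prop :=
  Full G D ∧ ∀ v, ¬ IsLeaf G v → v ∉ und G D → dn G D v = 0 ∨ dn G D v + 1 ≤ lf G D v

/-- Every non-leaf vertex has more leaf neighbours than non-leaf neighbours. -/
def Leafy : Prop := ∀ v, ¬ IsLeaf G v → innerDeg G v < leafDeg G v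

omit [Finite V] in
theorem lf_full (D : Set V) (h : Full G D) (c : V) (hc : c ∈ und G D) :
    lf G D c = leafDeg G c := by
  unfold lf leafDeg
  congr 1
  ext x
  exact ⟨fun h1 => ⟨h1.1, h1.2.1⟩, fun h1 => ⟨h1.1, h1.2, h c x h1.2 h1.1 hc⟩⟩

theorem dn_le_inner (D : Set V) (v : V) : dn G D v ≤ innerDeg G v := by
  apply Set.ncard_le_ncard _ (Set.toFinite _)
  rintro x ⟨h1, h2, _⟩
  exact ⟨h1, h2⟩

theorem dn_lt_inner (D : Set V) (v w : V) (hvw : G.Adj v w) (hw : ¬ IsLeaf G w)
    (hwD : w ∉ und G D) : dn G D v + 1 ≤ innerDeg G v := by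
  apply Nat.succ_le_of_lt
  apply Set.ncard_lt_ncard _ (Set.toFinite _)
  refine ⟨?_, ?_⟩
  · rintro x ⟨h1, h2, _⟩
    exact ⟨h1, h2⟩
  · intro h
    exact hwD (h (show w ∈ {x | G.Adj v x ∧ ¬ IsLeaf G x} from ⟨hvw, hw⟩)).2.2

theorem good2_inner (hS : Leafy G) (D : Set V) (v : V) (hv : ¬ IsLeaf G v) (h : Good2 G D) :
    Good2 G (insert v D) := by
  refine ⟨full_insert G D v h.1, fun w hw hwD' => ?_⟩
  by_cases hwv : w = v
  · subst hwv
    exact Or.inl (dn_inner_self G D w)
  · have h1 := dn_le G D v w
    have h2 := lf_inner_other G D v w hv hwv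
    by_cases hwD : w ∈ und G D
    · have hadj : G.Adj v w := by
        by_contra hcon
        apply hwD'
        rw [mem_und_insert]
        refine ⟨hwD, ?_⟩
        rintro (h3 | h3)
        · exact hwv h3
        · exact hcon h3
      have hvD : v ∉ und G (insert v D) := fun h3 =>
        ((mem_und_insert G D v v).1 h3).2 (Or.inl rfl)
      have h3 := dn_lt_inner G (insert v D) w v hadj.symm hv hvD
      have h4 := lf_full G D h.1 w hwD
      have h5 := hS w hw
      right; omega
    · rcases h.2 w hw hwD with h3 | h3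
      · left; omega
      · right; omega

omit [Finite V] in
theorem mem_leaf_other (D : Set V) (x c w : V) (hx : IsLeaf G x) (hc : G.Adj c x)
    (hw : ¬ IsLeaf G w) (hwc : w ≠ c) : w ∈ und G (insert x D) ↔ w ∈ und G D := by
  rw [mem_und_insert, inNbhd_leaf G hx hc]
  refine ⟨fun h => h.1, fun h => ⟨h, ?_⟩⟩
  rintro (rfl | rfl)
  · exact hw hx
  · exact hwc rfl

theorem ok2_leaf_other (hK : NoK2 G) (D : Set V) (x c w : V) (hx : IsLeaf G x) (hc : G.Adj c x)
    (hwc : w ≠ c) (hO : dn G D w = 0 ∨ dn G D w + 1 ≤ lf G D w) :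
    dn G (insert x D) w = 0 ∨ dn G (insert x D) w + 1 ≤ lf G (insert x D) w := by
  have h1 := dn_le G D x w
  have h2 := lf_leaf_other G hK D x c w hx hc hwc
  rcases hO with h3 | h3
  · left; omega
  · right; omega

theorem good2_leaf (hK : NoK2 G) (D : Set V) (x c : V) (hx : IsLeaf G x) (hc : G.Adj c x)
    (hxD : x ∈ und G D) (h : Good2 G D)
    (hroom : dn G D c = 0 ∨ dn G D c + 2 ≤ lf G D c) : Good2 G (insert x D) := by
  refine ⟨full_insert G D x h.1, fun w hw hwD => ?_⟩
  by_cases hwc : w = c
  · subst hwc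
    have h1 := dn_le G D x w
    have h2 := lf_leaf_self G hK D x w hx hc hxD
    rcases hroom with h3 | h3
    · left; omega
    · right; omega
  · rw [mem_leaf_other G D x c w hx hc hw hwc] at hwD
    exact ok2_leaf_other G hK D x c w hx hc hwc (h.2 w hw hwD)

theorem good2_restore (hK : NoK2 G) (hS : Leafy G) (D : Set V) (x c x' w : V)
    (hx : IsLeaf G x) (hc : G.Adj c x) (hxD : x ∈ und G D) (h : Good2 G D)
    (hroom : dn G D c + 1 = lf G D c) (hcw : G.Adj c w) (hw : ¬ IsLeaf G w)
    (hwD : w ∈ und G D) (hx' : IsLeaf G x') (hwx' : G.Adj w x') :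
    Good2 G (insert x' (insert x D)) := by
  have hwc : w ≠ c := hcw.ne'
  have hcl : ¬ IsLeaf G c := hK x c hc.symm hx
  have hF1 := full_insert G D x h.1
  refine ⟨full_insert G _ x' hF1, fun v hv hvD => ?_⟩
  have hwD' : w ∈ und G (insert x D) := (mem_leaf_other G D x c w hx hc hw hwc).2 hwD
  have hx'D' : x' ∈ und G (insert x D) := hF1 w x' hx' hwx' hwD'
  by_cases hvc : v = c
  · subst hvc
    have h1 := dn_le G D x v
    have h2 := lf_leaf_self G hK D x v hx hc hxD
    have h3 := dn_lt G (insert x D) x' v w hcw hw hwD' (Or.inr hwx'.symm)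
    have h4 := lf_leaf_other G hK (insert x D) x' w v hx' hwx' hwc.symm
    right; omega
  · by_cases hvw : v = w
    · subst hvw
      have hcD' : c ∉ und G (insert x D) := fun h3 =>
        ((mem_und_insert G D x c).1 h3).2 (Or.inr hc.symm)
      have h1 := dn_le G (insert x D) x' v
      have h2 := lf_leaf_self G hK (insert x D) x' v hx' hwx' hx'D'
      have h3 := dn_lt_inner G (insert x D) v c hcw.symm hcl hcD'
      have h4 := lf_full G (insert x D) hF1 v hwD'
      have h5 := hS v hv
      right; omega
    · rw [mem_leaf_other G (insert x D) x' w v hx' hwx' hv hvw,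
        mem_leaf_other G D x c v hx hc hv hvc] at hvD
      exact ok2_leaf_other G hK (insert x D) x' w v hx' hwx' hvw
        (ok2_leaf_other G hK D x c v hx hc hvc (h.2 v hv hvD))

end Inv

section Key

variable {V : Type*} [Fintype V] (G : SimpleGraph V)

theorem s_succ_snd (d : ℕ) : (s (d + 1)).2 = (d : ZMod 2) := by
  unfold s
  rw [if_neg (by omega)]
  rcases Nat.even_or_odd d with h | h
  · have h1 : (d + 1) % 2 = 1 := by have := Nat.even_iff.1 h; omega
    rw [if_pos h1]
    exact ((ZMod.natCast_eq_zero_iff_even).2 h).symm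
  · have h1 : ¬ (d + 1) % 2 = 1 := by have := Nat.odd_iff.1 h; omega
    rw [if_neg h1]
    exact ((ZMod.natCast_eq_one_iff_odd).2 h).symm

/-- The graph of the undominated non-leaf vertices. -/
def H (D : Set V) : SimpleGraph V where
  Adj x y := G.Adj x y ∧ (¬ IsLeaf G x ∧ x ∈ und G D) ∧ (¬ IsLeaf G y ∧ y ∈ und G D)
  symm := ⟨fun _ _ h => ⟨h.1.symm, h.2.2, h.2.1⟩⟩
  loopless := ⟨fun _ h => G.loopless.irrefl _ h.1⟩

theorem degree_H (D : Set V) (v : V) (hv : ¬ IsLeaf G v) (hvD : v ∈ und G D) :
    (H G D).degree v = dn G D v := by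
  have h : {x | G.Adj v x ∧ ¬ IsLeaf G x ∧ x ∈ und G D} = ((H G D).neighborFinset v : Set V) := by
    ext x
    rw [Finset.mem_coe, SimpleGraph.mem_neighborFinset]
    constructor
    · rintro ⟨h1, h2, h3⟩
      exact ⟨h1, ⟨hv, hvD⟩, h2, h3⟩
    · rintro ⟨h1, _, h2, h3⟩
      exact ⟨h1, h2, h3⟩
  rw [dn, h, Set.ncard_coe_finset, SimpleGraph.card_neighborFinset_eq_degree]

theorem degree_H_zero (D : Set V) (v : V) (hv : ¬ (¬ IsLeaf G v ∧ v ∈ und G D)) :
    (H G D).degree v = 0 := by
  rw [← SimpleGraph.card_neighborFinset_eq_degree, Finset.card_eq_zero]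
  ext x
  rw [SimpleGraph.mem_neighborFinset]
  constructor
  · rintro ⟨_, h1, _⟩
    exact absurd h1 hv
  · intro h
    exact absurd h (Finset.notMem_empty x)

theorem sum_degree_zero (D : Set V) : ∑ v, ((H G D).degree v : ZMod 2) = 0 := by
  have h := (H G D).sum_degrees_eq_twice_card_edges
  have h2 : ((∑ v, (H G D).degree v : ℕ) : ZMod 2) = 0 := by
    rw [h]
    push_cast
    have : (2 : ZMod 2) = 0 := by decide
    rw [this, zero_mul]
  rw [← h2]
  push_cast
  rfl

theorem exists_leafmove2 (hK : NoK2 G) (hS : Leafy G) (D : Set V) (hG : Good2 G D)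
    (h : (X G D).2 ≠ 0) :
    ∃ x, Legal G D x ∧ Good2 G (insert x D) ∧ X G (insert x D) = X G D + (1, 1) := by
  by_cases hA : ∃ w, ¬ IsLeaf G w ∧ dn G D w + 2 ≤ lf G D w
  · obtain ⟨w, hw, h2⟩ := hA
    obtain ⟨x, hx1, hx2, hx3⟩ := exists_leaf G D w (by omega)
    refine ⟨x, legal_leaf G D x hx3, good2_leaf G hK D x w hx2 hx1 hx3 hG (Or.inr h2), ?_⟩
    rw [X_leaf G hK D x w hx2 hx1 hx3, s_pred _ (by omega)]
  · push Not at hA
    -- an undominated non-leaf vertex has no dominated non-leaf neighbour
    have hB : ∀ w, ¬ IsLeaf G w → w ∈ und G D → lf G D w = dn G D w + 1 ∧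
        dn G D w = innerDeg G w := by
      intro w hw hwD
      have h1 := hA w hw
      have h2 := lf_full G D hG.1 w hwD
      have h3 := hS w hw
      have h4 := dn_le_inner G D w
      omega
    have hC : ∃ v, ¬ IsLeaf G v ∧ v ∉ und G D ∧ (s (lf G D v)).2 ≠ 0 := by
      by_contra hcon
      push Not at hcon
      apply h
      unfold X
      rw [Prod.snd_sum, ← sum_degree_zero G D]
      refine Finset.sum_congr rfl fun v _ => ?_
      unfold term
      by_cases hv : IsLeaf G v
      · rw [if_pos hv, degree_H_zero G D v (fun h3 => h3.1 hv)]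
        simp
      · rw [if_neg hv]
        by_cases hvD : v ∈ und G D
        · rw [degree_H G D v hv hvD, (hB v hv hvD).1, s_succ_snd]
        · rw [degree_H_zero G D v (fun h3 => hvD h3.2), hcon v hv hvD]
          simp
    obtain ⟨v, hv, hvD, hs⟩ := hC
    have hl := (s_snd _ hs).2
    obtain ⟨x, hx1, hx2, hx3⟩ := exists_leaf G D v (by omega)
    refine ⟨x, legal_leaf G D x hx3, good2_leaf G hK D x v hx2 hx1 hx3 hG (Or.inl ?_), ?_⟩
    · by_contra hne
      obtain ⟨w, hvw, hw1, hw2⟩ := exists_dn G D v (Nat.pos_of_ne_zero hne)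
      have h1 := dn_lt_inner G D w v hvw.symm hv hvD
      have h2 := (hB w hw1 hw2).2
      omega
    · rw [X_leaf G hK D x v hx2 hx1 hx3, s_pred _ hl]

theorem key2 (hK : NoK2 G) (hS : Leafy G) : ∀ n : ℕ, ∀ D : Set V, (und G D).ncard = n →
    Good2 G D → gr G D = val (X G D) := by
  intro n
  induction n using Nat.strong_induction_on with
  | _ n ih =>
    intro D hD hG
    have IH : ∀ y, Legal G D y → Good2 G (insert y D) →
        gr G (insert y D) = val (X G (insert y D)) := fun y hy hg =>
      ih _ (hD ▸ und_lt G D y hy) _ rfl hg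
    have opt1 : ∀ v, ¬ IsLeaf G v → 1 ≤ lf G D v →
        Legal G D v ∧ gr G (insert v D) = val (X G D + s (lf G D v)) := by
      intro v hv h1
      refine ⟨legal_inner G D v h1, ?_⟩
      rw [IH v (legal_inner G D v h1) (good2_inner G hS D v hv hG), X_inner G D v hv]
    apply gr_eq
    · -- no option has the value `X`
      intro y hy
      by_cases hyl : IsLeaf G y
      · -- leaf move
        obtain ⟨c, hc, -⟩ := id hyl
        have hcy : G.Adj c y := hc.symm
        have hcl : ¬ IsLeaf G c := hK y c hc hyl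
        have hyD : y ∈ und G D := by
          obtain ⟨u, hu, hyu⟩ := (legal_iff G D y).1 hy
          rcases (inNbhd_leaf G hyl hcy).1 hyu with rfl | rfl
          · exact hu
          · exact hG.1 _ y hyl hcy hu
        have h1 := lf_pos G D c y hcy hyl hyD
        have hX := X_leaf G hK D y c hyl hcy hyD
        have hne : s (lf G D c) + s (lf G D c - 1) ≠ 0 := by
          rcases Nat.lt_or_ge (lf G D c) 2 with h2 | h2
          · have : lf G D c = 1 := by omega
            rw [this, s_one]; decide
          · rw [s_pred _ h2]; decide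
        by_cases hroom : dn G D c = 0 ∨ dn G D c + 2 ≤ lf G D c
        · rw [IH y hy (good2_leaf G hK D y c hyl hcy hyD hG hroom), hX]
          exact A_ne _ _ hne
        · push Not at hroom
          have h3 : dn G D c + 1 = lf G D c := by
            by_cases hcD : c ∈ und G D
            · have e1 := lf_full G D hG.1 c hcD
              have e2 := hS c hcl
              have e3 := dn_le_inner G D c
              omega
            · rcases hG.2 c hcl hcD with h4 | h4
              · exact absurd h4 hroom.1
              · omega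
          obtain ⟨w, hcw, hw, hwD⟩ := exists_dn G D c (Nat.pos_of_ne_zero hroom.1)
          have hwc : w ≠ c := hcw.ne'
          have h5 := lf_full G D hG.1 w hwD
          have h6 := hS w hw
          have h7 : 1 ≤ innerDeg G w :=
            (Set.ncard_pos (Set.toFinite _)).2 ⟨c, hcw.symm, hcl⟩
          obtain ⟨x', hx1, hx2, hx3⟩ := exists_leaf G D w (by omega)
          have hwD' : w ∈ und G (insert y D) :=
            (mem_leaf_other G D y c w hyl hcy hw hwc).2 hwD
          have hx'D' : x' ∈ und G (insert y D) :=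
            full_insert G D y hG.1 w x' hx2 hx1 hwD'
          have hgood := good2_restore G hK hS D y c x' w hyl hcy hyD hG h3 hcw hw hwD hx2 hx1
          have hlw : lf G (insert y D) w = lf G D w := lf_leaf_other G hK D y c w hyl hcy hwc
          have hX2 := X_leaf G hK (insert y D) x' w hx2 hx1 hx'D'
          have hXe : X G (insert x' (insert y D)) = X G D := by
            rw [hX2, hlw, hX, s_pred _ (show 2 ≤ lf G D w by omega),
              s_pred _ (show 2 ≤ lf G D c by omega), add_assoc]
            have : ((1, 1) : A) + (1, 1) = 0 := by decide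
            rw [this, add_zero]
          have hleg := legal_leaf G (insert y D) x' hx'D'
          have hlt1 := und_lt G D y hy
          have hlt2 := und_lt G (insert y D) x' hleg
          have hval := ih _ (by omega) (insert x' (insert y D)) rfl hgood
          intro h
          apply gr_ne G (insert y D) x' hleg
          rw [h, hval, hXe]
      · -- inner move
        have h1 : 1 ≤ lf G D y := by
          by_contra hcon
          have hyD : y ∉ und G D := fun h => by
            have e1 := lf_full G D hG.1 y h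
            have e2 := hS y hyl
            omega
          obtain ⟨u, hu, hyu⟩ := (legal_iff G D y).1 hy
          rcases hyu with rfl | hyu
          · exact hyD hu
          · by_cases hul : IsLeaf G u
            · have := lf_pos G D y u hyu hul hu; omega
            · have := dn_pos G D y u hyu hul hu
              rcases hG.2 y hyl hyD with h4 | h4 <;> omega
        rw [(opt1 y hyl h1).2]
        exact A_ne _ _ (s_ne _ h1)
    · -- all smaller values are options
      intro k hk
      have P1 : (X G D).1 ≠ 0 → ∃ v, Legal G D v ∧ gr G (insert v D) = val (X G D + (1, 0)) := by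
        intro h
        obtain ⟨v, hv, hs, h1⟩ := exists_odd G D h
        exact ⟨v, (opt1 v hv h1).1, by rw [(opt1 v hv h1).2, hs]⟩
      have P2 : (X G D).2 ≠ 0 → ∃ v, Legal G D v ∧ gr G (insert v D) = val (X G D + (0, 1)) := by
        intro h
        obtain ⟨v, hv, hs, h1⟩ := exists_even G D h
        exact ⟨v, (opt1 v hv (by omega)).1, by rw [(opt1 v hv (by omega)).2, hs]⟩
      have P3 : (X G D).2 ≠ 0 → ∃ v, Legal G D v ∧ gr G (insert v D) = val (X G D + (1, 1)) := by
        intro h
        obtain ⟨x, hx1, hx2, hx3⟩ := exists_leafmove2 G hK hS D hG h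
        exact ⟨x, hx1, by rw [IH x hx1 hx2, hx3]⟩
      generalize X G D = p at hk P1 P2 P3
      revert P1 P2 P3 hk
      have hp : p = (0, 0) ∨ p = (1, 0) ∨ p = (0, 1) ∨ p = (1, 1) := by
        revert p; decide
      rcases hp with rfl | rfl | rfl | rfl
      · intro hk
        exact absurd hk (by simp [val])
      · intro hk P1 _ _
        have hk' : k = val (((1, 0) : A) + (1, 0)) := by
          have e1 : val ((1, 0) : A) = 1 := by decide
          have e2 : val (((1, 0) : A) + (1, 0)) = 0 := by decide
          omega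
        rw [hk']
        exact P1 (by decide)
      · intro hk _ P2 P3
        have e1 : val ((0, 1) : A) = 2 := by decide
        have e2 : val (((0, 1) : A) + (0, 1)) = 0 := by decide
        have e3 : val (((0, 1) : A) + (1, 1)) = 1 := by decide
        have hk' : k = val (((0, 1) : A) + (0, 1)) ∨ k = val (((0, 1) : A) + (1, 1)) := by omega
        rcases hk' with hk' | hk' <;> rw [hk']
        · exact P2 (by decide)
        · exact P3 (by decide)
      · intro hk P1 P2 P3
        have e1 : val ((1, 1) : A) = 3 := by decide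
        have e2 : val (((1, 1) : A) + (0, 1)) = 1 := by decide
        have e3 : val (((1, 1) : A) + (1, 1)) = 0 := by decide
        have e4 : val (((1, 1) : A) + (1, 0)) = 2 := by decide
        have hk' : k = val (((1, 1) : A) + (0, 1)) ∨ k = val (((1, 1) : A) + (1, 1)) ∨
          k = val (((1, 1) : A) + (1, 0)) := by omega
        rcases hk' with hk' | hk' | hk' <;> rw [hk']
        · exact P2 (by decide)
        · exact P3 (by decide)
        · exact P1 (by decide)

end Key

theorem gr_empty2 {V : Type*} [Finite V] (G : SimpleGraph V)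
    (h1 : (∀ x y, G.Adj x y → IsLeaf G x → ¬ IsLeaf G y) ∨ (G.Connected ∧ 3 ≤ Nat.card V))
    (h2 : ∀ v, ¬ IsLeaf G v → innerDeg G v < leafDeg G v) :
    gr G ∅ = oddInner G % 2 + 2 * (evenInner G % 2) := by
  cases nonempty_fintype V
  have hK : NoK2 G := by
    rcases h1 with h1 | h1
    · exact h1
    · exact noK2_of_connected G h1.1 h1.2
  have hG : Good2 G ∅ :=
    ⟨fun c x _ _ _ => und_empty G x, fun v _ hv => absurd (und_empty G v) hv⟩
  rw [key2 G hK h2 _ ∅ rfl hG]
  have e1 : (X G ∅).1 = (oddInner G : ZMod 2) := by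
    unfold X oddInner
    rw [Prod.fst_sum, ncard_eq_card_filter, ← Finset.sum_boole]
    refine Finset.sum_congr rfl fun v _ => ?_
    unfold term
    rw [lf_empty]
    by_cases hv : IsLeaf G v
    · rw [if_pos hv, if_neg (fun h => h.1 hv)]; rfl
    · have h3 := h2 v hv
      rw [if_neg hv]
      unfold s
      rw [if_neg (by omega)]
      by_cases ho : leafDeg G v % 2 = 1
      · rw [if_pos ho, if_pos ⟨hv, Nat.odd_iff.2 ho⟩]
      · rw [if_neg ho, if_neg (fun h => ho (Nat.odd_iff.1 h.2))]
  have e2 : (X G ∅).2 = (evenInner G : ZMod 2) := by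
    unfold X evenInner
    rw [Prod.snd_sum, ncard_eq_card_filter, ← Finset.sum_boole]
    refine Finset.sum_congr rfl fun v _ => ?_
    unfold term
    rw [lf_empty]
    by_cases hv : IsLeaf G v
    · rw [if_pos hv, if_neg (fun h => h.1 hv)]; rfl
    · have h3 := h2 v hv
      rw [if_neg hv]
      unfold s
      rw [if_neg (by omega)]
      by_cases ho : leafDeg G v % 2 = 1
      · rw [if_pos ho, if_neg (fun h => by have := Nat.even_iff.1 h.2; omega)]
      · rw [if_neg ho, if_pos ⟨hv, Nat.even_iff.2 (by omega)⟩]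
  unfold val
  rw [e1, e2, ZMod.val_natCast, ZMod.val_natCast]

theorem main2 {V : Type*} [Finite V] (G : SimpleGraph V)
    (h1 : (∀ x y, G.Adj x y → IsLeaf G x → ¬ IsLeaf G y) ∨ (G.Connected ∧ 3 ≤ Nat.card V))
    (h2 : ∀ v, ¬ IsLeaf G v → innerDeg G v < leafDeg G v) :
    (∀ n, HasGrundy G ∅ n ↔ n = oddInner G % 2 + 2 * (evenInner G % 2)) ∧
    (BobWins G ↔ Even (oddInner G) ∧ Even (evenInner G)) ∧
    (AliceWins G ↔ ¬ (Even (oddInner G) ∧ Even (evenInner G))) := by
  have hg := gr_empty2 G h1 h2
  refine ⟨fun n => by rw [gr_eq_iff, hg], ?_, ?_⟩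
  · rw [bobWins_iff, hg, Nat.even_iff, Nat.even_iff]
    omega
  · rw [aliceWins_iff, hg, Nat.even_iff, Nat.even_iff]
    omega

end Pool.Agent.NDG25
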